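import Pool.Agent.H79.TD.Stm

/-!
# The module SZB of the project TD
-/

set_option autoImplicit false
set_option linter.all false

open MvPolynomial Module Pool.Agent.H77.TF Pool.Agent.H79.TD

namespace Pool.Agent.H23.TD

section

variable {K : Type} [Field K]

/-- the number of the zeros of a polynomial over a finite field -/
lemma sz [Fintype K] {n k : ℕ} {p : MvPolynomial (Fin n) K} (hp : p ≠ 0)
    (hk : p.totalDegree ≤ k) (Z : Finset (Fin n → K)) (hZ : ∀ y ∈ Z, eval y p = 0) :
    Z.card * Fintype.card K ≤ k * Fintype.card K ^ n := by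
  classical
  have h := schwartz_zippel_totalDegree hp (Finset.univ : Finset K)
  rw [Finset.card_univ] at h
  have hq : (0 : ℚ≥0) < Fintype.card K := Nat.cast_pos.2 Fintype.card_pos
  rw [div_le_div_iff₀ (pow_pos hq n) hq] at h
  have h1 : (Finset.filter (fun f => eval f p = 0)
      (Fintype.piFinset fun _ : Fin n => (Finset.univ : Finset K))).card * Fintype.card K ≤
      p.totalDegree * Fintype.card K ^ n := by exact_mod_cast h
  have h2 : Z.card ≤ (Finset.filter (fun f => eval f p = 0)
      (Fintype.piFinset fun _ : Fin n => (Finset.univ : Finset K))).card :=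
    Finset.card_le_card fun y hy => Finset.mem_filter.2
      ⟨Fintype.mem_piFinset.2 fun _ => Finset.mem_univ _, hZ y hy⟩
  exact (Nat.mul_le_mul_right _ h2).trans (h1.trans (Nat.mul_le_mul_right _ hk))

lemma eval_comp {σ τ : Type} (P : σ → MvPolynomial τ K) (y : τ → K) (h : MvPolynomial σ K) :
    eval y (aeval P h) = eval (fun i => eval y (P i)) h := by
  induction h using MvPolynomial.induction_on with
  | C a => simp
  | add p q hp hq => rw [map_add, map_add, map_add, hp, hq]
  | mul_X p i hp => rw [map_mul, map_mul, map_mul, hp, aeval_X, eval_X]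

lemma deg_comp {n m : ℕ} (P : Fin n → MvPolynomial (Fin m) K) (hP : ∀ i, (P i).totalDegree ≤ 1)
    (h : MvPolynomial (Fin n) K) : (aeval P h).totalDegree ≤ h.totalDegree := by
  rw [aeval_def, eval₂_eq']
  refine totalDegree_finsetSum_le fun d hd => ?_
  have h1 : (∏ i, P i ^ d i).totalDegree ≤ ∑ i, d i := by
    refine (totalDegree_finsetProd _ _).trans (Finset.sum_le_sum fun i _ => ?_)
    refine (totalDegree_pow _ _).trans ?_
    calc d i * (P i).totalDegree ≤ d i * 1 := Nat.mul_le_mul_left _ (hP i)
      _ = d i := mul_one _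
  have h2 := le_totalDegree hd
  rw [Finsupp.sum_fintype _ _ (fun _ => rfl)] at h2
  refine (totalDegree_mul _ _).trans ?_
  rw [algebraMap_eq, totalDegree_C, zero_add]
  exact h1.trans h2

lemma eval_hom {n k : ℕ} {h : MvPolynomial (Fin n) K} (hh : h.IsHomogeneous k) (c : K)
    (x : Fin n → K) : eval (c • x) h = c ^ k * eval x h := by
  rw [eval_eq', eval_eq', Finset.mul_sum]
  refine Finset.sum_congr rfl fun d hd => ?_
  have h1 : ∑ i, d i = k := by
    have h2 := hh (mem_support_iff.1 hd)
    rw [Finsupp.weight_apply, Finsupp.sum_fintype _ _ (fun _ => by simp)] at h2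
    simpa using h2
  have h3 : ∏ i, (c • x) i ^ d i = c ^ k * ∏ i, x i ^ d i := by
    rw [← h1, ← Finset.prod_pow_eq_pow_sum, ← Finset.prod_mul_distrib]
    exact Finset.prod_congr rfl fun i _ => by rw [Pi.smul_apply, smul_eq_mul, mul_pow]
  rw [h3]
  ring

end

theorem t_SZB (hREP : S_REP) : S_SZB := by
  classical
  intro K _ _ ν _ _ A k h h0 hh
  obtain ⟨R, hRc, hR1, hR2, hR3⟩ := hREP K ν A
  rw [← hRc]
  obtain ⟨hhom, hvan⟩ := hh
  rcases R.eq_empty_or_nonempty with hRe | ⟨r0, hr0⟩
  · rw [hRe, Finset.card_empty]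
    exact Nat.zero_le _
  obtain ⟨i0⟩ : Nonempty ν := inferInstance
  set a := A i0 with ha
  have hdot : ∀ x ∈ Pts A, ∑ j, a j * x j ≠ 0 := fun x hx => hx i0
  obtain ⟨j, hj⟩ : ∃ j, a j ≠ 0 := by
    by_contra hcon
    push Not at hcon
    refine hdot r0 (hR1 r0 hr0) (Finset.sum_eq_zero fun i _ => ?_)
    rw [hcon, zero_mul]
  have htd : h.totalDegree = k := hhom.totalDegree h0
  set q := Fintype.card K with hq
  -- the parametrisation
  let Φ : (Fin 2 → K) → (Fin 3 → K) := fun y =>
    j.insertNth ((a j)⁻¹ * (1 - ∑ i : Fin 2, a (j.succAbove i) * y i)) y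
  have hΦa : ∀ y, ∑ i, a i * Φ y i = 1 := by
    intro y
    rw [Fin.sum_univ_succAbove _ j]
    simp only [Φ, Fin.insertNth_apply_same, Fin.insertNth_apply_succAbove]
    rw [mul_inv_cancel_left₀ hj]
    ring
  have hΦs : ∀ y i, Φ y (j.succAbove i) = y i := by
    intro y i
    simp only [Φ, Fin.insertNth_apply_succAbove]
  have hΦu : ∀ x : Fin 3 → K, ∑ i, a i * x i = 1 → Φ (fun i => x (j.succAbove i)) = x := by
    intro x hx
    funext i
    rcases Fin.eq_self_or_eq_succAbove j i with rfl | ⟨i', rfl⟩
    · rw [Fin.sum_univ_succAbove _ i] at hx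
      simp only [Φ, Fin.insertNth_apply_same]
      rw [← hx]
      field_simp
      ring
    · exact hΦs _ _
  -- the injection
  let Y : (Fin 3 → K) → (Fin 2 → K) := fun r i => (∑ i, a i * r i)⁻¹ * r (j.succAbove i)
  have hY : ∀ r ∈ Pts A, Φ (Y r) = (∑ i, a i * r i)⁻¹ • r := by
    intro r hr
    have h1 : ∑ i, a i * ((∑ i, a i * r i)⁻¹ • r) i = 1 := by
      simp only [Pi.smul_apply, smul_eq_mul]
      calc ∑ i, a i * ((∑ i, a i * r i)⁻¹ * r i) = (∑ i, a i * r i)⁻¹ * ∑ i, a i * r i := by
            rw [Finset.mul_sum]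
            exact Finset.sum_congr rfl fun i _ => by ring
        _ = 1 := inv_mul_cancel₀ (hdot r hr)
    have h2 := hΦu _ h1
    exact h2
  have hYinj : Set.InjOn Y R := by
    intro r hr s hs hrs
    have hr' := hR1 r hr
    have hs' := hR1 s hs
    have h1 : (∑ i, a i * r i)⁻¹ • r = (∑ i, a i * s i)⁻¹ • s := by
      rw [← hY r hr', ← hY s hs', hrs]
    refine hR3 r hr s hs ((∑ i, a i * r i) * (∑ i, a i * s i)⁻¹) ?_
    rw [mul_smul, ← h1, smul_smul, mul_inv_cancel₀ (hdot r hr'), one_smul]
  have hcard : (R.image Y).card = R.card := Finset.card_image_of_injOn hYinj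
  have hq0 : 0 < q := Fintype.card_pos
  -- large degree
  by_cases hkq : q ≤ k
  · rw [← hcard]
    refine (Finset.card_le_univ _).trans ?_
    rw [Fintype.card_fun, Fintype.card_fin, ← hq, sq]
    exact Nat.mul_le_mul_right _ hkq
  push Not at hkq
  -- degree zero
  rcases Nat.eq_zero_or_pos k with hk0 | hk1
  · exfalso
    rw [hk0] at htd
    rw [totalDegree_eq_zero_iff_eq_C] at htd
    have h1 := hvan r0 (hR1 r0 hr0)
    rw [htd, eval_C] at h1
    rw [h1, C_0] at htd
    exact h0 htd
  -- the polynomial in two variables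
  let P : Fin 3 → MvPolynomial (Fin 2) K :=
    j.insertNth (α := fun _ => MvPolynomial (Fin 2) K)
      (C (a j)⁻¹ * (1 - ∑ i : Fin 2, C (a (j.succAbove i)) * X i)) (fun i => X i)
  have hP : ∀ y i, eval y (P i) = Φ y i := by
    intro y i
    rcases Fin.eq_self_or_eq_succAbove j i with rfl | ⟨i', rfl⟩
    · simp only [P, Φ, Fin.insertNth_apply_same]
      simp
    · simp only [P, Φ, Fin.insertNth_apply_succAbove]
      simp
  have hPd : ∀ i, (P i).totalDegree ≤ 1 := by
    intro i
    rcases Fin.eq_self_or_eq_succAbove j i with rfl | ⟨i', rfl⟩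
    · simp only [P, Fin.insertNth_apply_same]
      refine (totalDegree_mul _ _).trans ?_
      rw [totalDegree_C, zero_add]
      refine (totalDegree_sub _ _).trans (max_le ?_ ?_)
      · rw [totalDegree_one]
        exact Nat.zero_le _
      · refine totalDegree_finsetSum_le fun i _ => (totalDegree_mul _ _).trans ?_
        rw [totalDegree_C, totalDegree_X]
    · simp only [P, Fin.insertNth_apply_succAbove]
      rw [totalDegree_X]
  set h' : MvPolynomial (Fin 2) K := aeval P h with hh'
  have hev : ∀ y, eval y h' = eval (Φ y) h := by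
    intro y
    rw [hh', eval_comp]
    have e : (fun i => eval y (P i)) = Φ y := funext fun i => hP y i
    rw [e]
  have hd' : h'.totalDegree ≤ k := (deg_comp P hPd h).trans_eq htd
  have hne : h' ≠ 0 := by
    intro hz
    have h1 : ∀ y, eval (Φ y) h = 0 := fun y => by rw [← hev, hz, map_zero]
    -- many zeros
    let g : Kˣ × (Fin 2 → K) → (Fin 3 → K) := fun u => (u.1 : K) • Φ u.2
    have hga : ∀ u, ∑ i, a i * g u i = u.1 := by
      intro u
      simp only [g, Pi.smul_apply, smul_eq_mul]
      calc ∑ i, a i * ((u.1 : K) * Φ u.2 i) = (u.1 : K) * ∑ i, a i * Φ u.2 i := by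
            rw [Finset.mul_sum]
            exact Finset.sum_congr rfl fun i _ => by ring
        _ = u.1 := by rw [hΦa, mul_one]
    have hginj : Function.Injective g := by
      rintro ⟨c, y⟩ ⟨d, z⟩ hgg
      have h2 : c = d := by
        apply Units.ext
        have e1 := hga (c, y)
        have e2 := hga (d, z)
        rw [hgg] at e1
        exact e1.symm.trans e2
      subst h2
      have h3 : Φ y = Φ z := by
        have h4 : (c : K) • Φ y = (c : K) • Φ z := hgg
        exact smul_right_injective _ c.ne_zero h4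
      have h4 : y = z := by
        funext i
        rw [← hΦs y i, ← hΦs z i, h3]
      rw [h4]
    have h2 := sz (p := h) h0 htd.le (insert 0 (Finset.univ.image g)) (by
      intro x hx
      rcases Finset.mem_insert.1 hx with rfl | hx
      · have h3 := eval_hom hhom 0 (0 : Fin 3 → K)
        rw [zero_smul, zero_pow hk1.ne', zero_mul] at h3
        exact h3
      · obtain ⟨u, -, rfl⟩ := Finset.mem_image.1 hx
        show eval ((u.1 : K) • Φ u.2) h = 0
        rw [eval_hom hhom, h1, mul_zero])
    have h3 : (0 : Fin 3 → K) ∉ Finset.univ.image g := by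
      intro h4
      obtain ⟨u, -, hu⟩ := Finset.mem_image.1 h4
      have h5 := hga u
      rw [hu] at h5
      simp at h5
      exact u.1.ne_zero h5.symm
    rw [Finset.card_insert_of_notMem h3, Finset.card_image_of_injective _ hginj,
      Finset.card_univ, Fintype.card_prod, Fintype.card_fun, Fintype.card_fin,
      Fintype.card_units, ← hq] at h2
    obtain ⟨t, ht⟩ : ∃ t, q = t + 1 := ⟨q - 1, by omega⟩
    rw [ht] at h2 hkq
    rw [Nat.add_sub_cancel] at h2
    have h6 : k ≤ t := by omega
    have h7 : k * (t + 1) ^ 3 ≤ t * (t + 1) ^ 3 := Nat.mul_le_mul_right _ h6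
    nlinarith
  have h2 := sz (p := h') hne hd' (R.image Y) (by
    intro y hy
    obtain ⟨r, hr, rfl⟩ := Finset.mem_image.1 hy
    have hr' := hR1 r hr
    rw [hev, hY r hr', eval_hom hhom, hvan r hr', mul_zero])
  rw [hcard, ← hq, sq, ← mul_assoc] at h2
  exact Nat.le_of_mul_le_mul_right h2 hq0

end Pool.Agent.H23.TD
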